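import Pool.Agent.W5h21.TB.Cl
import Pool.Agent.W5h21.TB.Prm

/-! Euler products of pure weight over the closed points of a ring of finite type over `ℤ`, at the edge
of convergence. -/

set_option autoImplicit false

namespace Pool.Agent.W5h21.TE

open Filter Topology
open Pool.Agent.H126R3 (Qc Qc_pos)
open Pool.Agent.W385.CP
open Pool.Agent.Y707.PH (Few exp_log)
open Pool.Agent.W5h21.TB

section
variable {B : Type} [CommRing B] [FinRes B] {j : ℕ} {N : ℝ}

/-- the eigenvalues are pure of weight `2 j`, and their number is bounded -/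
structure Pure (β : MaximalSpectrum B → Multiset ℂ) (j : ℕ) (N : ℝ) : Prop where
  norm : ∀ y, ∀ z ∈ β y, ‖z‖ = ((qn y : ℕ) : ℝ) ^ j
  card : ∀ y, ((β y).card : ℝ) ≤ N

/-- the traces of the powers -/
noncomputable def tb (β : MaximalSpectrum B → Multiset ℂ) (y : MaximalSpectrum B) (m : ℕ) : ℂ :=
  ((β y).map fun z => z ^ m).sum

variable {β : MaximalSpectrum B → Multiset ℂ}

theorem tb_norm (h : Pure β j N) (y : MaximalSpectrum B) (m : ℕ) :
    ‖tb β y m‖ ≤ N * (((qn y : ℕ) : ℝ) ^ m) ^ (j : ℝ) := by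
  unfold tb
  have hq : (0 : ℝ) ≤ ((qn y : ℕ) : ℝ) := Nat.cast_nonneg _
  have h3 : ∀ z ∈ β y, ‖z ^ m‖ = (((qn y : ℕ) : ℝ) ^ m) ^ (j : ℝ) := by
    intro z hz
    rw [norm_pow, h.norm y z hz, Real.rpow_natCast, ← pow_mul, ← pow_mul, mul_comm]
  refine (norm_multiset_sum_le _).trans ?_
  rw [Multiset.map_map]
  have h4 : (Multiset.map (norm ∘ fun z => z ^ m) (β y)).sum ≤
      (Multiset.map (norm ∘ fun z => z ^ m) (β y)).card • (((qn y : ℕ) : ℝ) ^ m) ^ (j : ℝ) := by
    refine Multiset.sum_le_card_nsmul _ _ fun x hx => ?_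
    obtain ⟨z, hz, rfl⟩ := Multiset.mem_map.1 hx
    exact (h3 z hz).le
  refine h4.trans ?_
  rw [Multiset.card_map, nsmul_eq_mul]
  exact mul_le_mul_of_nonneg_right (h.card y) (by positivity)

theorem N_nonneg (h : Pure β j N) (y : MaximalSpectrum B) : 0 ≤ N :=
  (Nat.cast_nonneg _).trans (h.card y)

variable (e C₀ : ℕ) [hB : HomBd B e C₀]

include hB in
theorem few_all : Few (Set.univ : Set (MaximalSpectrum B)) e C₀ := by
  intro c
  have h1 := hB.fin (Fc c)
  have h2 : Nat.card {ψ : B →+* Fc c // ptH ψ ∈ (Set.univ : Set (MaximalSpectrum B))} ≤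
      Nat.card (B →+* Fc c) :=
    Nat.card_le_card_of_injective (fun ψ => ψ.1) Subtype.val_injective
  have h3 := hB.bd (Fc c)
  rw [card_Fc] at h3
  exact_mod_cast h2.trans h3

include hB in
theorem norm_Ac (h : Pure β j N) (hN : 0 ≤ N) (c : Nat.Primes × ℕ) :
    ‖Ac (tb β) c‖ ≤ C₀ * N * (Qc c : ℝ) ^ (j + e) := by
  classical
  rw [Ac_eq (B := B) e C₀ (tb β) c (card_Fc c), norm_div, Complex.norm_natCast]
  have h2 : (1 : ℝ) ≤ ((c.2 + 1 : ℕ) : ℝ) := by exact_mod_cast Nat.succ_pos _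
  refine (div_le_self (norm_nonneg _) h2).trans ?_
  have hf1 := hB.fin (Fc c)
  let _ := Fintype.ofFinite (B →+* Fc c)
  rw [finsum_eq_sum_of_fintype]
  refine (norm_sum_le _ _).trans ?_
  have h3 : ∀ ψ ∈ (Finset.univ : Finset (B →+* Fc c)),
      ‖tb β (ptH ψ) (eH c (ptH ψ))‖ ≤ N * (Qc c : ℝ) ^ j := by
    intro ψ _
    refine (tb_norm h (ptH ψ) _).trans (le_of_eq ?_)
    obtain ⟨h1, h4⟩ := pj_ptH c (card_Fc c) ψ
    have h5 : (qn (ptH ψ)) ^ (eH c (ptH ψ)) = Qc c := by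
      rw [qn_eq]
      unfold Qc eH
      rw [h1, ← pow_mul, Nat.mul_div_cancel' h4]
    rw [Real.rpow_natCast, ← h5]
    push_cast
    rfl
  refine (Finset.sum_le_card_nsmul _ _ _ h3).trans ?_
  rw [nsmul_eq_mul, Finset.card_univ, ← Nat.card_eq_fintype_card]
  have h6 := hB.bd (Fc c)
  rw [card_Fc] at h6
  have h7 : (Nat.card (B →+* Fc c) : ℝ) ≤ C₀ * (Qc c : ℝ) ^ e := by exact_mod_cast h6
  calc (Nat.card (B →+* Fc c) : ℝ) * (N * (Qc c : ℝ) ^ j) ≤
      (C₀ * (Qc c : ℝ) ^ e) * (N * (Qc c : ℝ) ^ j) :=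
        mul_le_mul_of_nonneg_right h7 (by positivity)
    _ = _ := by rw [pow_add]; ring

include hB in
theorem cbG (h : Pure β j N) (hN : 0 ≤ N) : CB (Ac (tb β)) (j + e) (C₀ * N) where
  c0 := mul_nonneg (Nat.cast_nonneg _) hN
  h0 p := by
    refine (norm_Ac e C₀ h hN (p, 0)).trans ?_
    rw [Qc_zero]
  h1 p := by
    refine (norm_Ac e C₀ h hN (p, 1)).trans (le_of_eq ?_)
    congr 1
    unfold Qc
    push_cast
    rw [← pow_mul]
  h2 c := by
    refine (norm_Ac e C₀ h hN c).trans ?_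
    have h1 : (1 : ℝ) ≤ (Qc c : ℝ) := by exact_mod_cast Qc_pos c
    have h2 : (Qc c : ℝ) ^ (j + e) ≤ (Qc c : ℝ) ^ (((j + e : ℕ) : ℝ) + 1 / 2) := by
      rw [← Real.rpow_natCast]
      exact Real.rpow_le_rpow_of_exponent_le h1 (by linarith)
    exact mul_le_mul_of_nonneg_left h2 (mul_nonneg (Nat.cast_nonneg _) hN)

/-- the Euler factor -/
theorem factor (h : Pure β j N) (y : MaximalSpectrum B) {s : ℂ} (hs : (j : ℝ) < s.re) :
    Complex.exp (∑' m : ℕ, tm (tb β) s (y, m)) =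
      ((β y).map fun z => (1 - z * ((qn y : ℕ) : ℂ) ^ (-s))⁻¹).prod := by
  have hq0 : 0 < qn y := by
    have := two_le_qn y
    omega
  have hq1 : (1 : ℝ) < ((qn y : ℕ) : ℝ) := by
    have := two_le_qn y
    exact_mod_cast (by omega : 1 < qn y)
  have h2 : ∀ z ∈ β y, ‖z * ((qn y : ℕ) : ℂ) ^ (-s)‖ < 1 := by
    intro z hz
    rw [norm_mul, Complex.norm_natCast_cpow_of_pos hq0, h.norm y z hz, ← Real.rpow_natCast,
      ← Real.rpow_add (by linarith), Complex.neg_re]
    exact Real.rpow_lt_one_of_one_lt_of_neg hq1 (by linarith)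
  rw [← exp_log _ _ h2]
  congr 1
  refine tsum_congr fun m => ?_
  unfold tm tb
  rw [← Complex.cpow_nat_mul]
  congr 3
  push_cast
  ring

include hB in
/-- the Euler product -/
theorem hasProdG (h : Pure β j N) (hN : 0 ≤ N) {s : ℂ} (hs : (j : ℝ) + e + 1 < s.re) :
    HasProd (fun y : MaximalSpectrum B =>
      ((β y).map fun z => (1 - z * ((qn y : ℕ) : ℂ) ^ (-s))⁻¹).prod)
      (Complex.exp (∑' c, Ac (tb β) c * ((Qc c : ℕ) : ℂ) ^ (-s))) := by
  have h1 := hasProd_L (B := B) e C₀ (tr := tb β) (w := (j : ℝ)) (Ct := N) hN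
    (fun y m => tb_norm h y (m + 1)) s (by linarith)
  refine Eq.mp (congrArg (fun g => HasProd g _) (funext fun y => ?_)) h1
  have he : (0 : ℝ) ≤ e := Nat.cast_nonneg _
  rw [← factor h y (by linarith : (j : ℝ) < s.re)]
  rfl

/-- the partial Euler product -/
noncomputable def PE (β : MaximalSpectrum B → Multiset ℂ) (s : ℂ) (T : ℝ) : ℂ :=
  ∏ᶠ (y : MaximalSpectrum B) (_ : ((qn y : ℕ) : ℝ) ≤ T),
    ((β y).map fun z => (1 - z * ((qn y : ℕ) : ℂ) ^ (-s))⁻¹).prod

include hB in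
theorem PE_eq (h : Pure β j N) (hN : 0 ≤ N) {s : ℂ} (hs : s.re = j + e + 1) {T : ℝ} (hT : 0 < T) :
    PE β s T = Complex.exp (∑' z : MaximalSpectrum B × ℕ,
        if ((qn z.1 : ℕ) : ℝ) ≤ T then tm (tb β) s z else 0) := by
  have he : (0 : ℝ) ≤ e := Nat.cast_nonneg _
  have h1 := closed_prod (B := B) e C₀ (Y := Set.univ) (n := e) (C1 := C₀) (tr := tb β)
    (w := (j : ℝ)) (Ct := N) hN (fun y m => tb_norm h y (m + 1)) (fun y hy => absurd trivial hy)
    (few_all e C₀) s (by rw [hs]; linarith) (by rw [hs]; linarith) hT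
  rw [← h1]
  unfold PE
  refine finprod_congr fun y => finprod_congr_Prop rfl fun _ => ?_
  exact (factor h y (by rw [hs]; linarith)).symm

include hB in
theorem PE_cmp (h : Pure β j N) (hN : 0 ≤ N) {s : ℂ} (hs : s.re = j + e + 1) :
    Tendsto (fun T : ℝ => PE β s T *
      Complex.exp (-PS (wA (Ac (tb β)) s) tQ (Real.log T))) atTop (𝓝 1) := by
  have he : (0 : ℝ) ≤ e := Nat.cast_nonneg _
  have h1 := (closed (B := B) e C₀ (Y := Set.univ) (n := e) (C1 := C₀) (tr := tb β)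
    (w := (j : ℝ)) (Ct := N) hN (fun y m => tb_norm h y (m + 1)) (fun y hy => absurd trivial hy)
    (few_all e C₀) s (by rw [hs]; linarith) (by rw [hs]; linarith)).2
  have h2 := (Complex.continuous_exp.tendsto _).comp h1
  rw [Complex.exp_zero] at h2
  refine h2.congr' ?_
  filter_upwards [eventually_gt_atTop 0] with T hT
  rw [PE_eq e C₀ h hN hs hT, ← Complex.exp_add]
  rfl

/-- the sum of the traces -/
noncomputable def SE (β : MaximalSpectrum B → Multiset ℂ) (s : ℂ) (T : ℝ) : ℂ :=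
  ∑ᶠ (y : MaximalSpectrum B) (_ : ((qn y : ℕ) : ℝ) ≤ T),
    (β y).sum * ((qn y : ℕ) : ℂ) ^ (-s)

include hB in
theorem SE_cmp (h : Pure β j N) (hN : 0 ≤ N) {s : ℂ} (hs : s.re = j + e + 1) :
    ∃ L : ℂ, Tendsto (fun T : ℝ => PS (wA (Ac (tb β)) s) tQ (Real.log T) - SE β s T) atTop
      (𝓝 L) := by
  classical
  have he : (0 : ℝ) ≤ e := Nat.cast_nonneg _
  obtain ⟨h1, h2⟩ := closed (B := B) e C₀ (Y := Set.univ) (n := e) (C1 := C₀) (tr := tb β)
    (w := (j : ℝ)) (Ct := N) hN (fun y m => tb_norm h y (m + 1)) (fun y hy => absurd trivial hy)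
    (few_all e C₀) s (by rw [hs]; linarith) (by rw [hs]; linarith)
  have h3 := summ_sq (B := B) e C₀ (Y := Set.univ) (n := e) (C1 := C₀) (tr := tb β)
    (w := (j : ℝ)) (Ct := N) hN (fun y m => tb_norm h y (m + 1)) (fun y hy => absurd trivial hy)
    (few_all e C₀) s (by rw [hs]; linarith) (by rw [hs]; linarith)
  -- the higher powers
  set g : ℝ → MaximalSpectrum B × ℕ → ℂ := fun T z =>
    if z.2 ≠ 0 ∧ ((qn z.1 : ℕ) : ℝ) ≤ T then tm (tb β) s z else 0 with hg
  set u : MaximalSpectrum B × ℕ → ℂ := fun z => if z.2 ≠ 0 then tm (tb β) s z else 0 with hu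
  have hgb : ∀ T z, ‖g T z‖ ≤ if z.2 = 0 then 0 else ‖tm (tb β) s z‖ := by
    intro T z
    simp only [hg]
    by_cases h4 : z.2 = 0
    · rw [if_pos h4, if_neg (fun h => h.1 h4), norm_zero]
    · rw [if_neg h4]
      split_ifs
      · exact le_rfl
      · rw [norm_zero]
        exact norm_nonneg _
  have h4 : Tendsto (fun T : ℝ => ∑' z, g T z) atTop (𝓝 (∑' z, u z)) := by
    refine tendsto_tsum_of_dominated_convergence h3 (fun z => ?_) (Eventually.of_forall hgb)
    refine tendsto_const_nhds.congr' ?_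
    filter_upwards [eventually_ge_atTop ((qn z.1 : ℕ) : ℝ)] with T hT
    simp only [hg, hu]
    by_cases h5 : z.2 = 0
    · rw [if_neg (fun h => h h5), if_neg (fun h => h.1 h5)]
    · rw [if_pos h5, if_pos ⟨h5, hT⟩]
  have hgs : ∀ T, Summable (g T) := fun T => Summable.of_norm_bounded h3 (hgb T)
  -- the first powers
  have h5 : ∀ T : ℝ, 0 < T → (∑' z : MaximalSpectrum B × ℕ,
      if ((qn z.1 : ℕ) : ℝ) ≤ T then tm (tb β) s z else 0) = SE β s T + ∑' z, g T z := by
    intro T hT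
    have hfin := finY (B := B) e C₀ T
    set f0 : MaximalSpectrum B × ℕ → ℂ := fun z =>
      if z.2 = 0 ∧ ((qn z.1 : ℕ) : ℝ) ≤ T then tm (tb β) s z else 0 with hf0
    have hinj : Function.Injective (fun y : MaximalSpectrum B => (y, 0)) :=
      fun a b h => (Prod.mk.inj h).1
    have e1 : ∀ y : MaximalSpectrum B, f0 (y, 0) =
        if ((qn y : ℕ) : ℝ) ≤ T then (β y).sum * ((qn y : ℕ) : ℂ) ^ (-s) else 0 := by
      intro y
      simp only [hf0]
      by_cases h6 : ((qn y : ℕ) : ℝ) ≤ T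
      · rw [if_pos ⟨trivial, h6⟩, if_pos h6]
        unfold tm tb
        simp
      · rw [if_neg (fun h => h6 h.2), if_neg h6]
    have hs0 : HasSum f0 (SE β s T) := by
      rw [← hinj.hasSum_iff (fun z hz => by
        obtain ⟨y, m⟩ := z
        simp only [hf0]
        refine if_neg fun h => hz ⟨y, ?_⟩
        simp only
        rw [h.1])]
      have h7 := hasSum_sum_of_ne_finset_zero (L := SummationFilter.unconditional _)
        (s := hfin.toFinset) (f := f0 ∘ fun y : MaximalSpectrum B => (y, 0)) fun y hy => by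
          rw [Set.Finite.mem_toFinset] at hy
          rw [Function.comp_apply, e1]
          exact if_neg hy
      have h8 : SE β s T = ∑ y ∈ hfin.toFinset, (f0 ∘ fun y : MaximalSpectrum B => (y, 0)) y := by
        unfold SE
        refine (finsum_mem_eq_finite_toFinset_sum _ hfin).trans ?_
        refine Finset.sum_congr rfl fun y hy => ?_
        rw [Set.Finite.mem_toFinset] at hy
        have hy' : ((qn y : ℕ) : ℝ) ≤ T := hy
        rw [Function.comp_apply, e1, if_pos hy']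
      rw [h8]
      exact h7
    have e2 : (fun z : MaximalSpectrum B × ℕ =>
        if ((qn z.1 : ℕ) : ℝ) ≤ T then tm (tb β) s z else 0) = fun z => f0 z + g T z := by
      funext z
      simp only [hf0, hg]
      by_cases h6 : ((qn z.1 : ℕ) : ℝ) ≤ T
      · by_cases h7 : z.2 = 0
        · rw [if_pos h6, if_pos ⟨h7, h6⟩, if_neg (fun h => h.1 h7), add_zero]
        · rw [if_pos h6, if_neg (fun h => h7 h.1), if_pos ⟨h7, h6⟩, zero_add]
      · rw [if_neg h6, if_neg (fun h => h6 h.2), if_neg (fun h => h6 h.2), add_zero]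
    rw [e2, hs0.summable.tsum_add (hgs T), hs0.tsum_eq]
  refine ⟨∑' z, u z, ?_⟩
  have h6 := h4.sub h2
  rw [sub_zero] at h6
  refine h6.congr' ?_
  filter_upwards [eventually_gt_atTop 0] with T hT
  rw [h5 T hT]
  ring

end

end Pool.Agent.W5h21.TE
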