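import Pool.Agent.W5h21.TE.Gen
import Pool.Agent.R410.BS.Cod2

/-! The pole at the edge of convergence and the asymptotic behaviour of the Euler product. -/

set_option autoImplicit false

namespace Pool.Agent.W5h21.TE

open Filter Topology
open Pool.Agent.H126R3 (Qc Qc_pos)
open Pool.Agent.W385.CP
open Pool.Agent.W5h21.TB

theorem cpow_expG {x : ℝ} (hx : 0 < x) (ρ D : ℂ) :
    (x : ℂ) ^ ρ * Complex.exp D = Complex.exp (D + ρ * (Real.log x : ℂ)) := by
  have hx' : (x : ℂ) ≠ 0 := by exact_mod_cast hx.ne'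
  rw [Complex.cpow_def_of_ne_zero hx', ← Complex.exp_add, ← Complex.ofReal_log hx.le]
  congr 1
  ring

section
variable {B : Type} [CommRing B] [FinRes B] {j : ℕ} {N : ℝ}
  {β : MaximalSpectrum B → Multiset ℂ} (e C₀ : ℕ) [hB : HomBd B e C₀] {L : ℂ → ℂ} {s : ℂ}

include hB in
theorem radial (h : Pure β j N) (hN : 0 ≤ N)
    (hL : ∀ s : ℂ, (j : ℝ) + e + 1 < s.re → HasProd (fun y : MaximalSpectrum B =>
      ((β y).map fun z => (1 - z * ((qn y : ℕ) : ℂ) ^ (-s))⁻¹).prod) (L s))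
    (hs : s.re = j + e + 1) (ρ c : ℂ) :
    Tendsto (fun ε : ℝ => (ε : ℂ) ^ ρ * L (s + ε)) (𝓝[>] 0) (𝓝 c) ↔
      Tendsto (fun t : ℝ => Complex.exp (DS (wA (Ac (tb β)) s) tQ t⁻¹ - ρ * (Real.log t : ℂ)))
        atTop (𝓝 c) := by
  have h1 : ∀ ε : ℝ, 0 < ε → (ε : ℂ) ^ ρ * L (s + ε) =
      Complex.exp (DS (wA (Ac (tb β)) s) tQ ε + ρ * (Real.log ε : ℂ)) := by
    intro ε hε
    have hre : (j : ℝ) + e + 1 < (s + ε).re := by
      rw [Complex.add_re, Complex.ofReal_re, hs]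
      linarith
    rw [(hL _ hre).unique (hasProdG e C₀ h hN hre), cpow_expG hε, wA_DS]
  constructor
  · intro h
    refine (h.comp tendsto_inv_atTop_nhdsGT_zero).congr' ?_
    filter_upwards [eventually_gt_atTop 0] with t ht
    rw [Function.comp_apply, h1 _ (inv_pos.2 ht), Real.log_inv]
    congr 1
    push_cast
    ring
  · intro h
    refine (h.comp tendsto_inv_nhdsGT_zero).congr' ?_
    filter_upwards [self_mem_nhdsWithin] with ε hε
    have hε' : (0 : ℝ) < ε := hε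
    rw [Function.comp_apply, h1 ε hε', inv_inv, Real.log_inv]
    congr 1
    push_cast
    ring

include hB in
theorem product_iff (h : Pure β j N) (hN : 0 ≤ N) (hs : s.re = j + e + 1) (ρ c : ℂ) :
    Tendsto (fun T : ℝ => PE β s T * (Real.log T : ℂ) ^ (-ρ)) atTop (𝓝 c) ↔
      Tendsto (fun t : ℝ => Complex.exp (PS (wA (Ac (tb β)) s) tQ t - ρ * (Real.log t : ℂ)))
        atTop (𝓝 c) := by
  have h1 := PE_cmp e C₀ h hN hs
  have key : ∀ T : ℝ, 1 < T → PE β s T * (Real.log T : ℂ) ^ (-ρ) =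
      (PE β s T * Complex.exp (-PS (wA (Ac (tb β)) s) tQ (Real.log T))) *
        Complex.exp (PS (wA (Ac (tb β)) s) tQ (Real.log T) - ρ * (Real.log (Real.log T) : ℂ)) := by
    intro T hT
    have hl : 0 < Real.log T := Real.log_pos hT
    have h2 : Complex.exp (PS (wA (Ac (tb β)) s) tQ (Real.log T) -
        ρ * (Real.log (Real.log T) : ℂ)) = (Real.log T : ℂ) ^ (-ρ) *
        Complex.exp (PS (wA (Ac (tb β)) s) tQ (Real.log T)) := by
      rw [cpow_expG hl]
      congr 1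
      ring
    rw [h2, Complex.exp_neg]
    have := Complex.exp_ne_zero (PS (wA (Ac (tb β)) s) tQ (Real.log T))
    field_simp
  have e1 : Tendsto (fun t : ℝ => Complex.exp (PS (wA (Ac (tb β)) s) tQ t -
        ρ * (Real.log t : ℂ))) atTop (𝓝 c) ↔
      Tendsto (fun T : ℝ => Complex.exp (PS (wA (Ac (tb β)) s) tQ (Real.log T) -
        ρ * (Real.log (Real.log T) : ℂ))) atTop (𝓝 c) := by
    constructor
    · intro h
      exact h.comp Real.tendsto_log_atTop
    · intro h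
      have h3 := h.comp Real.tendsto_exp_atTop
      refine h3.congr fun t => ?_
      rw [Function.comp_apply, Real.log_exp]
  rw [e1]
  constructor
  · intro h2
    have h3 := h2.div h1 one_ne_zero
    rw [div_one] at h3
    refine h3.congr' ?_
    have h4 : ∀ᶠ T in atTop, PE β s T *
        Complex.exp (-PS (wA (Ac (tb β)) s) tQ (Real.log T)) ≠ 0 := h1.eventually_ne one_ne_zero
    filter_upwards [h4, eventually_gt_atTop 1] with T hT hT1
    simp only [Pi.div_apply]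
    rw [key T hT1, mul_div_cancel_left₀ _ hT]
  · intro h2
    have h3 := h1.mul h2
    rw [one_mul] at h3
    refine h3.congr' ?_
    filter_upwards [eventually_gt_atTop 1] with T hT1
    exact (key T hT1).symm

include hB in
/-- **The pole and the product.** -/
theorem main_product (h : Pure β j N) (hN : 0 ≤ N)
    (hL : ∀ s : ℂ, (j : ℝ) + e + 1 < s.re → HasProd (fun y : MaximalSpectrum B =>
      ((β y).map fun z => (1 - z * ((qn y : ℕ) : ℂ) ^ (-s))⁻¹).prod) (L s))
    (hs : s.re = j + e + 1) (ρ : ℂ) {c : ℂ} (hc : c ≠ 0) :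
    Tendsto (fun ε : ℝ => (ε : ℂ) ^ ρ * L (s + ε)) (𝓝[>] 0) (𝓝 c) ↔
      Tendsto (fun T : ℝ => PE β s T * (Real.log T : ℂ) ^ (-ρ)) atTop
        (𝓝 (c * Complex.exp (Real.eulerMascheroniConstant * ρ))) := by
  have hcb := cbG e C₀ h hN
  have hs' : s.re = ((j + e : ℕ) : ℝ) + 1 := by
    rw [hs]
    push_cast
    ring
  set c' : ℂ := c * Complex.exp (Real.eulerMascheroniConstant * ρ) with hc'
  have hc'0 : c' ≠ 0 := mul_ne_zero hc (Complex.exp_ne_zero _)
  have h1 := edge hcb hs' ρ hc'0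
  have h2 : c' * Complex.exp (-(ρ * (Real.eulerMascheroniConstant : ℂ))) = c := by
    rw [hc', mul_assoc, ← Complex.exp_add]
    have : (Real.eulerMascheroniConstant : ℂ) * ρ +
        -(ρ * (Real.eulerMascheroniConstant : ℂ)) = 0 := by ring
    rw [this, Complex.exp_zero, mul_one]
  rw [h2] at h1
  rw [radial e C₀ h hN hL hs, ← h1]
  exact (product_iff e C₀ h hN hs ρ c').symm

include hB in
/-- **The pole and the sum.** -/
theorem main_sum (h : Pure β j N) (hN : 0 ≤ N)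
    (hL : ∀ s : ℂ, (j : ℝ) + e + 1 < s.re → HasProd (fun y : MaximalSpectrum B =>
      ((β y).map fun z => (1 - z * ((qn y : ℕ) : ℂ) ^ (-s))⁻¹).prod) (L s))
    (hs : s.re = j + e + 1) (ρ : ℂ) :
    (∃ c : ℂ, c ≠ 0 ∧ Tendsto (fun ε : ℝ => (ε : ℂ) ^ ρ * L (s + ε)) (𝓝[>] 0) (𝓝 c)) ↔
      ∃ S : ℂ, Tendsto (fun T : ℝ => SE β s T - ρ * (Real.log (Real.log T) : ℂ)) atTop (𝓝 S) := by
  have hcb := cbG e C₀ h hN
  have hs' : s.re = ((j + e : ℕ) : ℝ) + 1 := by
    rw [hs]
    push_cast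
    ring
  have hslow := slow_pp hcb.c0 (wA_zero hcb hs') (wA_tail hcb hs') (wA_summ hcb hs')
  obtain ⟨L0, hL0⟩ := SE_cmp e C₀ h hN hs
  have e1 : (∃ c : ℂ, c ≠ 0 ∧ Tendsto (fun ε : ℝ => (ε : ℂ) ^ ρ * L (s + ε)) (𝓝[>] 0) (𝓝 c)) ↔
      ∃ S : ℂ, Tendsto (fun t : ℝ => PS (wA (Ac (tb β)) s) tQ t - ρ * (Real.log t : ℂ))
        atTop (𝓝 S) := by
    constructor
    · rintro ⟨c, hc, h1⟩
      set c' : ℂ := c * Complex.exp (Real.eulerMascheroniConstant * ρ) with hc'
      have hc'0 : c' ≠ 0 := mul_ne_zero hc (Complex.exp_ne_zero _)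
      have h2 : c' * Complex.exp (-(ρ * (Real.eulerMascheroniConstant : ℂ))) = c := by
        rw [hc', mul_assoc, ← Complex.exp_add]
        have : (Real.eulerMascheroniConstant : ℂ) * ρ +
            -(ρ * (Real.eulerMascheroniConstant : ℂ)) = 0 := by ring
        rw [this, Complex.exp_zero, mul_one]
      have h3 := (edge hcb hs' ρ hc'0).2 (by
        rw [h2]
        exact (radial e C₀ h hN hL hs ρ c).1 h1)
      obtain ⟨z, -, hz⟩ := lift_slow (slow_sub hslow ρ) hc'0 h3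
      exact ⟨z, hz⟩
    · rintro ⟨S, h1⟩
      have h3 := (edge_add hcb hs' ρ S).1 h1
      have h4 := (Complex.continuous_exp.tendsto _).comp h3
      exact ⟨_, Complex.exp_ne_zero _, (radial e C₀ h hN hL hs ρ _).2 h4⟩
  rw [e1]
  constructor
  · rintro ⟨S, h1⟩
    refine ⟨S - L0, ?_⟩
    have h2 := (h1.comp Real.tendsto_log_atTop).sub hL0
    refine h2.congr fun T => ?_
    rw [Function.comp_apply]
    ring
  · rintro ⟨S, h1⟩
    refine ⟨S + L0, ?_⟩
    have h2 := (h1.add hL0).comp Real.tendsto_exp_atTop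
    refine h2.congr fun t => ?_
    simp only [Function.comp_apply, Real.log_exp]
    ring

end

section
variable {B : Type} [CommRing B]

/-- the residue fields are finite -/
theorem finResB [Algebra.FiniteType ℤ B] : FinRes B where
  fin y := by
    have h2 : Algebra.FiniteType ℤ (Rs y) :=
      Algebra.FiniteType.of_surjective (Ideal.Quotient.mkₐ ℤ y.asIdeal) Ideal.Quotient.mk_surjective
    exact Pool.Agent.H126R3.finite_of_finiteType (Rs y)

/-- few homomorphisms to finite fields -/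
theorem homBdB {k : Type} [IsDomain B] [Field k] [CharZero k] [Algebra B k] [IsFractionRing B k]
    [Algebra.FiniteType ℤ B] {e : ℕ} (he : Algebra.trdeg ℚ k = e) : ∃ C₀ : ℕ, HomBd B e C₀ := by
  obtain ⟨C, hC, h⟩ := Pool.Agent.R410.BS.hom_le (R := B) (K := k) (IsFractionRing.injective B k)
    he.le
  refine ⟨⌈C⌉₊, ⟨fun F _ _ => ?_, fun F _ _ => ?_⟩⟩
  · obtain ⟨S, hS⟩ := (inferInstance : Algebra.FiniteType ℤ B).out
    refine Finite.of_injective (fun (φ : B →+* F) (x : S) => φ x.1) fun φ ψ hφψ => ?_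
    have h1 : (φ.toIntAlgHom : B →ₐ[ℤ] F) = ψ.toIntAlgHom := by
      refine AlgHom.ext_of_adjoin_eq_top hS fun x hx => ?_
      exact congrFun hφψ ⟨x, hx⟩
    ext x
    exact congrArg (fun f : B →ₐ[ℤ] F => f x) h1
  · have h1 := h F
    have h2 : C ≤ ⌈C⌉₊ := Nat.le_ceil C
    have h3 : (Nat.card (B →+* F) : ℝ) ≤ (⌈C⌉₊ : ℝ) * (Nat.card F : ℝ) ^ e :=
      h1.trans (mul_le_mul_of_nonneg_right h2 (by positivity))
    exact_mod_cast h3

end

end Pool.Agent.W5h21.TE
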